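import Pool.Agent.N589.LL.Tasks

/-!
# LL/05: the completions `K_v` of `F_2(t)` (project LL of helper589)
-/

open scoped WithZero Polynomial MatrixGroups Topology
open IsDedekindDomain RestrictedProduct

noncomputable section

namespace N589LL

lemma lt_exp_add_one_iff (m : ℤ) (a : ℤᵐ⁰) : a < WithZero.exp (m + 1) ↔ a ≤ WithZero.exp m := by
  rw [WithZero.exp_add, WithZero.lt_mul_exp_iff_le WithZero.exp_ne_zero]

lemma lt_one_iff_le_exp (a : ℤᵐ⁰) : a < 1 ↔ a ≤ WithZero.exp (-1) := by
  rw [← lt_exp_add_one_iff]; simp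

lemma exists_pv_unif (v : Place) : ∃ x : K, pv v x = WithZero.exp (-1) := by
  match v with
  | none =>
    refine ⟨1 / RatFunc.X, ?_⟩
    classical
    exact RatFunc.inftyValuation.X_inv (ZMod 2)
  | some v =>
    exact v.valuation_exists_uniformizer K

lemma exists_pv_eq_exp (v : Place) (m : ℤ) : ∃ x : K, pv v x = WithZero.exp m := by
  obtain ⟨x, hx⟩ := exists_pv_unif v
  refine ⟨x ^ (-m), ?_⟩
  rw [map_zpow₀, hx, ← WithZero.exp_zsmul]
  congr 1
  simp

lemma mem_nhds_zero_Kv (v : Place) (s : Set (Kv v)) :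
    s ∈ 𝓝 (0 : Kv v) ↔ ∃ m : ℤ, {x | val v x ≤ WithZero.exp (-m)} ⊆ s := by
  rw [Valued.mem_nhds_zero]
  constructor
  · rintro ⟨γ, hγ⟩
    obtain ⟨g, hg⟩ : ∃ g : ℤᵐ⁰, g = MonoidWithZeroHom.ValueGroup₀.embedding γ.1 := ⟨_, rfl⟩
    have hg0 : g ≠ 0 := by
      rw [hg]
      exact (map_ne_zero _).2 γ.ne_zero
    refine ⟨-(WithZero.log g - 1), ?_⟩
    intro x hx
    apply hγ
    simp only [Set.mem_ofPred_eq] at hx ⊢
    rw [Valuation.restrict_lt_iff_lt_embedding, ← hg]
    rw [neg_neg, ← lt_exp_add_one_iff, sub_add_cancel, WithZero.exp_log hg0] at hx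
    exact hx
  · rintro ⟨m, hm⟩
    obtain ⟨y, hy⟩ := exists_pv_eq_exp v (-m + 1)
    have hy' : val v (incl v y) = WithZero.exp (-m + 1) := by rw [val_incl, hy]
    have hne : (Valued.v.restrict (incl v y)) ≠ 0 := by
      intro h
      rw [Valuation.restrict_eq_zero_iff] at h
      change val v (incl v y) = 0 at h
      rw [hy'] at h
      exact WithZero.exp_ne_zero h
    refine ⟨Units.mk0 _ hne, ?_⟩
    intro x hx
    apply hm
    simp only [Set.mem_ofPred_eq, Units.val_mk0] at hx ⊢
    rw [Valuation.restrict_lt_iff] at hx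
    change val v x < val v (incl v y) at hx
    rwa [hy', lt_exp_add_one_iff] at hx

lemma nhds_Kv (v : Place) (x : Kv v) (m : ℤ) : {z | val v (x - z) ≤ WithZero.exp (-m)} ∈ 𝓝 x := by
  have h : {z | val v z ≤ WithZero.exp (-m)} ∈ 𝓝 (x - x) := by
    rw [sub_self]
    exact (mem_nhds_zero_Kv v _).2 ⟨m, subset_rfl⟩
  exact (continuous_const.sub continuous_id).continuousAt.preimage_mem_nhds h

lemma dense_Kv (v : Place) (x : Kv v) (m : ℤ) :
    ∃ y : K, val v (x - incl v y) ≤ WithZero.exp (-m) := by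
  obtain ⟨y, hy⟩ := UniformSpace.Completion.denseRange_coe.exists_mem_open
    (isOpen_interior (s := {z | val v (x - z) ≤ WithZero.exp (-m)}))
    ⟨x, mem_interior_iff_mem_nhds.2 (nhds_Kv v x m)⟩
  refine ⟨WithVal.equiv _ y, ?_⟩
  have h := interior_subset hy
  exact h

lemma finite_quot_A (v : HeightOneSpectrum A) : Finite (A ⧸ v.asIdeal) := by
  obtain ⟨p, hp⟩ := (IsPrincipalIdealRing.principal v.asIdeal).1
  have hp0 : p ≠ 0 := by
    rintro rfl
    apply v.ne_bot
    rw [hp]
    simp
  have : Module.Finite (ZMod 2) (AdjoinRoot p) := (AdjoinRoot.powerBasis hp0).finite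
  have : Finite (AdjoinRoot p) := Module.finite_of_finite (ZMod 2)
  rw [hp]
  exact this

lemma exists_reps_finite (v : HeightOneSpectrum A) :
    ∃ R : Finset K, ∀ y : K, pv (some v) y ≤ 1 → ∃ r ∈ R, pv (some v) (y - r) < 1 := by
  have := finite_quot_A v
  have := Fintype.ofFinite (A ⧸ v.asIdeal)
  classical
  refine ⟨Finset.univ.image fun q : A ⧸ v.asIdeal => algebraMap A K q.out, fun y hy => ?_⟩
  obtain ⟨a, ha⟩ := HeightOneSpectrum.exists_valuation_sub_lt_of_integer v hy 1
  refine ⟨_, Finset.mem_image_of_mem _ (Finset.mem_univ (Ideal.Quotient.mk v.asIdeal a)), ?_⟩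
  have e : y - algebraMap A K (Quotient.out (Ideal.Quotient.mk v.asIdeal a)) =
    (algebraMap A K (a - Quotient.out (Ideal.Quotient.mk v.asIdeal a))) - (algebraMap A K a - y) := by
    rw [map_sub]; ring
  rw [e]
  refine lt_of_le_of_lt (Valuation.map_sub _ _ _) (max_lt ?_ (by simpa using! ha))
  change v.valuation K _ < 1
  rw [HeightOneSpectrum.valuation_of_algebraMap, HeightOneSpectrum.intValuation_lt_one_iff_mem]
  rw [← Ideal.Quotient.eq]
  simp

lemma pv_none_div (p q : A) (hp : p ≠ 0) (hq : q ≠ 0) :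
    pv none (algebraMap A K p / algebraMap A K q) =
      WithZero.exp ((p.natDegree : ℤ) - q.natDegree) := by
  classical
  rw [map_div₀]
  change RatFunc.inftyValuationDef (ZMod 2) _ / RatFunc.inftyValuationDef (ZMod 2) _ = _
  rw [RatFunc.inftyValuation.polynomial (ZMod 2) hp, RatFunc.inftyValuation.polynomial (ZMod 2) hq]
  rfl

lemma zmod2_eq_one (a : ZMod 2) (h : a ≠ 0) : a = 1 := by
  revert a; decide

/-- An element of `K` with valuation `≤ 1` at infinity is `0` or `1` modulo the maximal ideal. -/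
lemma residue_infty (y : K) (hy : pv none y ≤ 1) : pv none y < 1 ∨ pv none (y - 1) < 1 := by
  classical
  by_cases hy1 : pv none y < 1
  · exact Or.inl hy1
  · refine Or.inr ?_
    have hy2 : pv none y = 1 := le_antisymm hy (not_lt.1 hy1)
    have hy0 : y ≠ 0 := by
      rintro rfl
      simp at hy2
    have hn : y.num ≠ 0 := by simpa using hy0
    have hd : y.denom ≠ 0 := y.denom_ne_zero
    have e : y = algebraMap A K y.num / algebraMap A K y.denom := y.num_div_denom.symm
    have h3 : (y.num.natDegree : ℤ) - y.denom.natDegree = 0 := by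
      rw [e, pv_none_div _ _ hn hd] at hy2
      exact WithZero.exp_eq_one.1 hy2
    have hdK : algebraMap A K y.denom ≠ 0 := by simpa using hd
    have e2 : y - 1 = algebraMap A K (y.num - y.denom) / algebraMap A K y.denom := by
      rw [map_sub, sub_div, div_self hdK, ← e]
    by_cases h4 : y.num - y.denom = 0
    · rw [e2, h4]; simp
    · rw [e2, pv_none_div _ _ h4 hd, ← WithZero.exp_zero, WithZero.exp_lt_exp]
      have h5 : (y.num - y.denom).degree < y.num.degree := by
        apply Polynomial.degree_sub_lt_left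
        · rw [Polynomial.degree_eq_natDegree hn, Polynomial.degree_eq_natDegree hd]
          norm_cast
          omega
        · exact hn
        · rw [zmod2_eq_one _ (Polynomial.leadingCoeff_ne_zero.2 hn),
            zmod2_eq_one _ (Polynomial.leadingCoeff_ne_zero.2 hd)]
      have h6 := Polynomial.natDegree_lt_natDegree h4 h5
      omega

lemma exists_reps (v : Place) :
    ∃ R : Finset K, ∀ y : K, pv v y ≤ 1 → ∃ r ∈ R, pv v (y - r) < 1 := by
  classical
  match v with
  | none =>
    refine ⟨{0, 1}, fun y hy => ?_⟩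
    rcases residue_infty y hy with h | h
    · exact ⟨0, by simp, by simpa using h⟩
    · exact ⟨1, by simp, h⟩
  | some v => exact exists_reps_finite v

lemma exists_net (v : Place) (m : ℕ) :
    ∃ S : Finset (Kv v), ∀ x : Kv v, val v x ≤ 1 →
      ∃ s ∈ S, val v (x - s) ≤ WithZero.exp (-(m : ℤ)) := by
  classical
  obtain ⟨R, hR⟩ := exists_reps v
  obtain ⟨π, hπ⟩ := exists_pv_unif v
  have hπ' : val v (incl v π) = WithZero.exp (-1) := by rw [val_incl, hπ]
  have hπ0 : incl v π ≠ 0 := by
    intro h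
    rw [h, map_zero] at hπ'
    exact WithZero.exp_ne_zero hπ'.symm
  induction m with
  | zero => exact ⟨{0}, fun x hx => ⟨0, by simp, by simpa using hx⟩⟩
  | succ m ih =>
    obtain ⟨S, hS⟩ := ih
    refine ⟨Finset.image₂ (fun s r => s + (incl v π) ^ m * incl v r) S R, fun x hx => ?_⟩
    obtain ⟨s, hs, hxs⟩ := hS x hx
    have hπm : val v ((incl v π) ^ m) = WithZero.exp (-(m : ℤ)) := by
      rw [map_pow, hπ', ← WithZero.exp_nsmul]; congr 1; simp
    set u := (x - s) / (incl v π) ^ m with hudef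
    have hxu : x - s = (incl v π) ^ m * u := by
      rw [hudef]; field_simp
    have hu : val v u ≤ 1 := by
      rw [hudef, map_div₀, hπm]
      exact div_le_one_of_le₀ hxs zero_le
    obtain ⟨y, hy⟩ := dense_Kv v u 1
    have hyu : val v (u - incl v y) < 1 := by
      rw [lt_one_iff_le_exp]; exact hy
    obtain ⟨r, hr, hyr⟩ := hR y (by
      rw [← val_incl]
      have e : incl v y = u - (u - incl v y) := by ring
      rw [e]
      exact (Valuation.map_sub _ _ _).trans (max_le hu hyu.le))
    refine ⟨_, Finset.mem_image₂_of_mem hs hr, ?_⟩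
    have e : x - (s + (incl v π) ^ m * incl v r) =
        (incl v π) ^ m * ((u - incl v y) + incl v (y - r)) := by
      rw [map_sub]
      linear_combination hxu
    rw [e, map_mul, hπm]
    have h1 : val v ((u - incl v y) + incl v (y - r)) ≤ WithZero.exp (-1) := by
      rw [← lt_one_iff_le_exp]
      refine lt_of_le_of_lt (Valuation.map_add _ _ _) (max_lt hyu ?_)
      rw [val_incl]; exact hyr
    have e3 : WithZero.exp (-((m + 1 : ℕ) : ℤ)) = WithZero.exp (-(m : ℤ)) * WithZero.exp (-1) := by
      rw [← WithZero.exp_add]; congr 1; push_cast; ring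
    rw [e3]
    exact mul_le_mul' le_rfl h1

theorem compactSpace_Ov (v : Place) : CompactSpace (Ov v) := by
  have : IsCompact (Ov v : Set (Kv v)) := by
    rw [isCompact_iff_totallyBounded_isComplete]
    constructor
    · rw [totallyBounded_iff_subset_finite_iUnion_nhds_zero]
      intro U hU
      obtain ⟨m, hm⟩ := (mem_nhds_zero_Kv v U).1 hU
      obtain ⟨S, hS⟩ := exists_net v m.toNat
      refine ⟨S, S.finite_toSet, fun x hx => ?_⟩
      obtain ⟨s, hs, hxs⟩ := hS x hx
      simp only [Set.mem_iUnion]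
      refine ⟨s, hs, ?_⟩
      rw [Set.mem_vadd_set_iff_neg_vadd_mem]
      apply hm
      simp only [Set.mem_ofPred_eq, vadd_eq_add]
      rw [neg_add_eq_sub]
      refine hxs.trans ?_
      rw [WithZero.exp_le_exp]
      omega
    · exact (Valued.isClosed_integer (Kv v)).isComplete
  exact isCompact_iff_compactSpace.1 this

theorem TaskLocTop_proof : TaskLocTop := fun v =>
  ⟨exists_pv_unif v, dense_Kv v, mem_nhds_zero_Kv v, compactSpace_Ov v⟩

end N589LL
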